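import Pool.Agent.X269.HE.Fin

/-!
MP_6a3dac_ag: regular models, proper and flat over the integers, in every dimension, of étale
quotients of products of hyperelliptic curves over number fields by involutions with wild fixed loci
over `2`.

Let `E` be a number field in which `2` is unramified. The factors are double covers
`y ^ 2 + h y = f` of the projective line over the integers of `E` with `deg h ≤ r`, `deg f ≤ 2 r`
(curves of genus `r - 1`), with the projective embedding by `1, x, ..., x ^ r, y`, and `rev` is the
equation at infinity, in the coordinates `1 / x` and `y / x ^ r`. The involution `σ` of the product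
`X` is the hyperelliptic involution `y ↦ - y - h`, `x ↦ x` on some of the factors (at least one) and
changes signs of `x` and `y` (or of one of them, or of none) on the others. It has no fixed points
over `E`: on one of the factors it is `(x, y) ↦ (- x, - y)`, with `r` even and
`f 0 ≠ 0`, and the coefficient of `x ^ (2 r)` in `f` is not zero (this is the only way, up to
exchanging factors, in which such an involution can be free). The variety `V` is the quotient
`X / σ` over `E`, embedded by the invariant forms of degree `2 k`, for any `k ≥ 1`. So the cover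
`X → V` is étale, but modulo `2` the involution fixes the product of the
Weierstrass points of the factors of the first kind and of the other factors; it is wild there.

Example: `E = ℚ`, genus one curves `y ^ 2 + a x y = b x ^ 4 + c x ^ 2 + d` with `a b d` odd, for
which `σ` is the translation `(x, y) ↦ (- x, - y)` by a point of order two, and
genus two curves `y ^ 2 + h y = h`, `h = x ^ 3 + x + c`, `c` odd, with the hyperelliptic involution,
if `b d ((a ^ 2 + 4 c) ^ 2 - 64 b d)` and `(27 c ^ 2 + 4) (27 (c + 4) ^ 2 + 4)` are squarefree and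
pairwise coprime.

The proof: (1) the product of the models is regular; (2) at a fixed point over `2` let
`𝔞` be the ideal generated by `2` and by the functions `y` and `h` of the factors of the first kind;
`σ - 1` maps the local ring into `𝔞` and `𝔞` into `𝔞 ^ 2`, the quotient by `𝔞` is
regular and the leading form of `σ - 1` along `𝔞` has no zeros; (3) then the quotient of the
blowing-up of the centre and of the fixed schemes is regular, with an explicit finitely generated
module of forms (the criterion for involutions of the starting library, due to helpers 223, 418,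
188, 214 and others); (4) over `E` the forms of this module are the products of three invariant
and of one anti-invariant form of degree two, divided by one anti-invariant form; as the
anti-invariant forms of degree two have no common zeros, a power of this module generates over `E`
a power of the space of the invariant forms, so that the generic fibre is `V`.

helper269; built on the library of the starting files.
-/

set_option autoImplicit false

open AlgebraicGeometry CategoryTheory CategoryTheory.Limits Polynomial NumberField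
  Pool.Agent.X269.HP Pool.Agent.X269.HQ

open scoped NumberField

namespace Pool.Agent.Results.MP_6a3dac_ag.EtaleInvolutionQuotients

/-- `x` are homogeneous coordinates in the field `F` of the variety with the homogeneous coordinate
ring `B` over `E`: a form vanishes in `B` if and only if it vanishes at `x`. -/
def IsCoordinates {E F B : Type} [Field E] [Field F] [Algebra E F] [CommRing B] [Algebra E B]
    {n : ℕ} (π : MvPolynomial (Fin (n + 1)) E →ₐ[E] B) (x : Fin (n + 1) → F) : Prop :=
  ∀ d, ∀ P : MvPolynomial (Fin (n + 1)) E, P.IsHomogeneous d → (π P = 0 ↔ MvPolynomial.aeval x P = 0)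

/-- The curves `C i : y ^ 2 + h y = f` over the ring of integers have `deg h ≤ r` and `deg f ≤ 2 r`,
their models are regular away from `2` (the branch polynomials `h ^ 2 + 4 f` of `C i` and of the
equation at infinity are not in the square of a maximal ideal which does not contain `2`), and
at every prime not containing `2` at most one of them is not smooth (the primes at which `C i` is
not smooth contain `d i`). -/
def AreRegular {E : Type} [Field E] {n : ℕ} (C : Fin (n + 1) → Hyp (𝓞 E)) : Prop :=
  (∀ i, (C i).IsDeg) ∧
  (∀ i, ∀ 𝔪 : Ideal (𝓞 E)[X], 𝔪.IsMaximal → 2 ∉ 𝔪 →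
    (C i).branch ∉ 𝔪 ^ 2 ∧ (C i).rev.branch ∉ 𝔪 ^ 2) ∧
  ∃ d : Fin (n + 1) → 𝓞 E, (∀ i, (C i).IsDisc (d i) ∧ (C i).rev.IsDisc (d i)) ∧
    ∀ i j, i ≠ j → ∀ 𝔭 : Ideal (𝓞 E), 𝔭.IsPrime → d i ∈ 𝔭 → d j ∈ 𝔭 → 2 ∈ 𝔭

/-- At the primes containing `2`: for `i` not in `T` the equation of `C i` is
`y ^ 2 + h y = h u + 4 v`, where the roots of `h` are simple and not roots of `u`, including
infinity; for `i` in `T` the reduction of `C i` is smooth. -/
def AreSmoothAtTwo {E : Type} [Field E] {n : ℕ} (C : Fin (n + 1) → Hyp (𝓞 E))
    (T : Set (Fin (n + 1))) : Prop :=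
  (∀ i, i ∉ T → (C i).IsOrd ∧ (C i).rev.IsOrd) ∧
  ∀ i ∈ T, (C i).IsSmoothTwo ∧ (C i).rev.IsSmoothTwo

/-- `K` is the function field of the product of the curves `C i` over `E`, with the generic points
`(x i, y i)`. -/
def IsProductField {E K : Type} [Field E] [Field K] [Algebra E K] {n : ℕ}
    (C : Fin (n + 1) → Hyp (𝓞 E)) (x y : Fin (n + 1) → K) : Prop :=
  AlgebraicIndependent E x ∧
  (∀ i, y i ^ 2 + aeval (x i) ((C i).h.map (algebraMap (𝓞 E) E)) * y i =
    aeval (x i) ((C i).f.map (algebraMap (𝓞 E) E))) ∧
  IntermediateField.adjoin E (Set.range x ∪ Set.range y) = ⊤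

/-- `σ` is an automorphism of `K` over `E` which maps `(x i, y i)` to
`(x i, - y i - h (x i))` for `i` not in `T`, and to `(± x i, ± y i)` for `i` in `T`, with any
signs, and has the field of invariants `F`. -/
def IsInvolution {E F K : Type} [Field E] [Field F] [Field K] [Algebra E K] [Algebra F K] {n : ℕ}
    (C : Fin (n + 1) → Hyp (𝓞 E)) (x y : Fin (n + 1) → K) (T : Set (Fin (n + 1)))
    (σ : K ≃ₐ[E] K) : Prop :=
  (∀ i, i ∉ T → σ (x i) = x i ∧
    σ (y i) = -y i - aeval (x i) ((C i).h.map (algebraMap (𝓞 E) E))) ∧
  (∀ i ∈ T, (σ (x i) = x i ∨ σ (x i) = -x i) ∧ (σ (y i) = y i ∨ σ (y i) = -y i)) ∧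
  ∀ z, σ z = z ↔ ∃ f : F, algebraMap F K f = z

/-- On one of the factors `i` in `T` the involution is `(x i, y i) ↦ (- x i, - y i)`, `r` is even, and
the coefficients of `1` and `x ^ (2 r)` in `f` are not zero. -/
def IsFree {E K : Type} [Field E] [Field K] [Algebra E K] {n : ℕ}
    (C : Fin (n + 1) → Hyp (𝓞 E)) (x y : Fin (n + 1) → K) (T : Set (Fin (n + 1)))
    (σ : K ≃ₐ[E] K) : Prop :=
  ∃ i ∈ T, σ (x i) = -x i ∧ σ (y i) = -y i ∧ Even (C i).r ∧ (C i).f.coeff 0 ≠ 0 ∧
    (C i).f.coeff (2 * (C i).r) ≠ 0

/-- The coordinates `z` span over `E` the space of the forms of degree `2 k` on the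
product of the curves `C i` which are invariant under `σ`; here the forms of degree
one are the linear combinations of the products of the forms `1, x i, ..., x i ^ r, y i` (the Segre
embedding). -/
def AreInvariantForms {E F K : Type} [Field E] [Field F] [Field K] [Algebra E K] [Algebra F K]
    {n N : ℕ} (C : Fin (n + 1) → Hyp (𝓞 E)) (x y : Fin (n + 1) → K) (σ : K ≃ₐ[E] K) (k : ℕ)
    (z : Fin (N + 1) → F) : Prop :=
  ∀ w : K, w ∈ Submodule.span E (Set.range fun j => algebraMap F K (z j)) ↔
    w ∈ (∏ i, forms E (C i).r (x i) (y i)) ^ (2 * k) ∧ σ w = w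

/-- The dimension of the local ring `A` equals the dimension of its cotangent space. -/
def HasRegularDimension (A : Type) [CommRing A] [IsLocalRing A] : Prop :=
  ringKrullDim A = (((Module.finrank (IsLocalRing.ResidueField A)
    (IsLocalRing.CotangentSpace A) : ℕ) : ℕ∞) : WithBot ℕ∞)

/-- The generic fibre of `g` is isomorphic over `E` to `X` with the morphism `f`. -/
def HasGenericFibre {E : Type} [Field E] {X Y : Scheme.{0}}
    (f : X ⟶ Spec (CommRingCat.of E)) (g : Y ⟶ Spec (CommRingCat.of (𝓞 E))) : Prop :=
  ∃ e : pullback g (Spec.map (CommRingCat.ofHom (algebraMap (𝓞 E) E))) ≅ X,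
    e.hom ≫ f = pullback.snd g (Spec.map (CommRingCat.ofHom (algebraMap (𝓞 E) E)))

/-- The morphism `g` from `Y` is a regular proper flat model over the ring of integers of `E` of `X`
with the morphism `f` to `Spec E`. -/
def IsRegularProperFlatModel {E : Type} [Field E] {X Y : Scheme.{0}}
    (f : X ⟶ Spec (CommRingCat.of E)) (g : Y ⟶ Spec (CommRingCat.of (𝓞 E))) : Prop :=
  IsProper g ∧ Flat g ∧ (∀ y : Y, HasRegularDimension (Y.presheaf.stalk y)) ∧ HasGenericFibre f g

/-- The structure morphism of `Proj ℬ` over `E`. -/
noncomputable def structureMorphism {E B : Type} [Field E] [CommRing B] [Algebra E B]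
    (ℬ : ℕ → Submodule E B) [GradedAlgebra ℬ] : Proj ℬ ⟶ Spec (CommRingCat.of E) :=
  Proj.toSpecZero ℬ ≫ Spec.map (CommRingCat.ofHom (algebraMap E (ℬ 0)))

theorem result :
    ∀ (E : Type) [Field E] [NumberField E], Squarefree (Ideal.span {(2 : 𝓞 E)}) →
      -- the curves
      ∀ (n : ℕ) (C : Fin (n + 1) → Hyp (𝓞 E)), AreRegular C →
      ∀ T : Set (Fin (n + 1)), (∃ i, i ∉ T) → AreSmoothAtTwo C T →
      -- the function fields
      ∀ (F K : Type) [Field F] [Field K] [Algebra E F] [Algebra E K] [Algebra F K]
      [IsScalarTower E F K] (x y : Fin (n + 1) → K), IsProductField C x y →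
      -- the involution
      ∀ σ : K ≃ₐ[E] K, IsInvolution (F := F) C x y T σ → IsFree C x y T σ →
      -- the variety `V`
      ∀ (k N : ℕ) (B : Type) [CommRing B] [Algebra E B] (π : MvPolynomial (Fin (N + 1)) E →ₐ[E] B),
      1 ≤ k → Function.Surjective π →
      ∀ (ℬ : ℕ → Submodule E B) [GradedAlgebra ℬ],
      (∀ d, ℬ d = (MvPolynomial.homogeneousSubmodule (Fin (N + 1)) E d).map π.toLinearMap) →
      ∀ z : Fin (N + 1) → F, IsCoordinates π z → AreInvariantForms C x y σ k z →
      -- every scheme over `E` isomorphic to `V = Proj ℬ` has a regular proper flat model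
      ∀ (X : Scheme.{0}) (f : X ⟶ Spec (CommRingCat.of E)) (i : X ≅ Proj ℬ),
      i.hom ≫ structureMorphism ℬ = f →
      ∃ (Y : Scheme.{0}) (g : Y ⟶ Spec (CommRingCat.of (𝓞 E))), IsRegularProperFlatModel f g := by
  intro E _ _ h2 n C ⟨hC, hR, d, hd, hco⟩ T hT ⟨hord, hsmo⟩ F K _ _ _ _ _ _ x y ⟨hx, hE, hK⟩ σ
    ⟨hσ, hσt, hσF⟩ hfree k N B _ _ π hk hπ ℬ _ hℬ z hz hzk X f i hi
  let _ : Algebra (𝓞 E) F := ((algebraMap E F).comp (algebraMap (𝓞 E) E)).toAlgebra
  have hst : IsScalarTower (𝓞 E) E F := IsScalarTower.of_algebraMap_eq fun _ => rfl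
  have hM : Pool.Agent.W418.GoodModule (𝓞 E) z :=
    Pool.Agent.X269.HE.et_of_data h2 C hC hR d hd hco T hT hord hsmo x y hx hE hK σ hσ hσt hfree
      hσF hk z hzk
  obtain ⟨ε, hε, hεgen, hε1⟩ := Pool.Agent.Y223.INV.exists_eps2 z π hπ ℬ hℬ
    (fun d P hP => hz d P hP)
  exact Pool.Agent.TH214.RM.hasModel_of_goodModule (O := 𝓞 E) ℬ ε hε hεgen z hε1 hM f i hi

end Pool.Agent.Results.MP_6a3dac_ag.EtaleInvolutionQuotients
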