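import Pool.Agent.X269.HQ.GoodFin

/-!
MP_6a3dac_ag: regular models, proper and flat over the ring of integers of a number field, in every
dimension, of products of quadratic twists of hyperelliptic curves by ramified characters, with
ordinary reduction at the primes over `2` before twisting.

The involution `s` of the number field `L`, with the field of invariants `E`, may be ramified at
primes over `2`, with different exponent two. (For `E = ℚ`, `L = ℚ(√D)`, `D` squarefree, this means
that `D` is odd.) The factors are double covers `y ^ 2 + h y = f` of the projective line over the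
integers of `L` with `deg h ≤ r`, `deg f ≤ 2 r` (curves of genus `r - 1`), with the projective
embedding by `1, x, ..., x ^ r, y`, and `rev` is the equation at infinity, in the coordinates `1 / x`
and `y / x ^ r`. The variety `V` over `E` becomes over `L` the product of these curves with the Segre
embedding; `F` is its function field, `K` that of the product and `σ` the involution of `K`
over `F` which extends `s`. It is the hyperelliptic involution `y ↦ - y - h`, `x ↦ x`
on some of the factors and changes signs of `x` and `y` (or of none of them) on the others. So `V`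
is the product of the twists by the quadratic extension of curves of the first kind, and of forms of
the curves of the second kind. For example, for `E = ℚ`, `L = ℚ(√D)` and curves over `ℤ`, all of the
first kind, `V` is the product of the curves `Y ^ 2 = D (h ^ 2 + 4 f)`. Their reduction at `2` is
not semistable, and acquires good ordinary reduction over a wildly ramified extension, if `D ≡ 3`
modulo `4` and `r ≥ 2`.

The proof: (1) the product over the ring of integers of `L` is regular; (2) over a ramified prime
over `2` let `𝔞` be the ideal of a fixed point generated by the prime and by the functions `y` and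
`h` of the factors of the first kind; `σ - 1` maps the local ring into `𝔞` and `𝔞` into `𝔞 ^ 2`, the
quotient by `𝔞` is regular and the leading form of `σ - 1` along `𝔞` has no zeros; (3) then the
quotient of the blowing-up of the centre and of the fixed schemes is regular (the criterion for
involutions of the starting library, due to helpers 223, 418, 188, 214 and others), and its generic
fibre is `V`.

helper269; built on the library of the starting files.
-/

set_option autoImplicit false

open AlgebraicGeometry CategoryTheory CategoryTheory.Limits Polynomial NumberField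
  Pool.Agent.X269.HP Pool.Agent.X269.HQ

open scoped NumberField

namespace Pool.Agent.Results.MP_6a3dac_ag.TwistedHyperellipticProducts

/-- `x` are homogeneous coordinates in the field `F` of the variety with the homogeneous coordinate
ring `B` over `E`: a form vanishes in `B` if and only if it vanishes at `x`. -/
def IsCoordinates {E F B : Type} [Field E] [Field F] [Algebra E F] [CommRing B] [Algebra E B]
    {n : ℕ} (π : MvPolynomial (Fin (n + 1)) E →ₐ[E] B) (x : Fin (n + 1) → F) : Prop :=
  ∀ d, ∀ P : MvPolynomial (Fin (n + 1)) E, P.IsHomogeneous d → (π P = 0 ↔ MvPolynomial.aeval x P = 0)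

/-- The action of the automorphism `s` on the ring of integers. -/
noncomputable def onIntegers {E L : Type} [Field E] [Field L] [Algebra E L] (s : L ≃ₐ[E] L) :
    𝓞 L ≃+* 𝓞 L :=
  RingOfIntegers.mapRingEquiv (s : L ≃+* L)

/-- At each prime `𝔓` containing `2` modulo which `s` is the identity there is `a` in `𝔓` such that
`s a - a` is not in `𝔓 ^ 3`: the different exponent is two at the ramified primes over `2`. -/
def HasDifferentExponentTwo {E L : Type} [Field E] [Field L] [Algebra E L] (s : L ≃ₐ[E] L) : Prop :=
  ∀ 𝔓 : Ideal (𝓞 L), 𝔓.IsPrime → 2 ∈ 𝔓 → (∀ a, onIntegers s a - a ∈ 𝔓) →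
    ∃ a ∈ 𝔓, onIntegers s a - a ∉ 𝔓 ^ 3

/-- The curves `C i : y ^ 2 + h y = f` over the ring of integers have `deg h ≤ r` and `deg f ≤ 2 r`,
their models are regular away from `2` (the branch polynomials `h ^ 2 + 4 f` of `C i` and of the
equation at infinity are not in the square of a maximal ideal which does not contain `2`), and
at every prime not containing `2` at most one of them is not smooth (the primes at which `C i` is
not smooth contain `d i`). -/
def AreRegular {L : Type} [Field L] {n : ℕ} (C : Fin (n + 1) → Hyp (𝓞 L)) : Prop :=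
  (∀ i, (C i).IsDeg) ∧
  (∀ i, ∀ 𝔪 : Ideal (𝓞 L)[X], 𝔪.IsMaximal → 2 ∉ 𝔪 →
    (C i).branch ∉ 𝔪 ^ 2 ∧ (C i).rev.branch ∉ 𝔪 ^ 2) ∧
  ∃ d : Fin (n + 1) → 𝓞 L, (∀ i, (C i).IsDisc (d i) ∧ (C i).rev.IsDisc (d i)) ∧
    ∀ i j, i ≠ j → ∀ 𝔭 : Ideal (𝓞 L), 𝔭.IsPrime → d i ∈ 𝔭 → d j ∈ 𝔭 → 2 ∈ 𝔭

/-- At the primes containing `2`: for `i` not in `T` the equation of `C i` is
`y ^ 2 + h y = h u + 2 v`, where the roots of `h` are simple and not roots of `u`, including
infinity, and `s` fixes the coefficients of `h`; for `i` in `T` the reduction of `C i` is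
smooth. -/
def AreSmoothAtTwo {E L : Type} [Field E] [Field L] [Algebra E L] (s : L ≃ₐ[E] L) {n : ℕ}
    (C : Fin (n + 1) → Hyp (𝓞 L)) (T : Set (Fin (n + 1))) : Prop :=
  (∀ i, i ∉ T → IsOrdTwo (C i) ∧ IsOrdTwo (C i).rev ∧
    (C i).h.map (onIntegers s : 𝓞 L →+* 𝓞 L) = (C i).h) ∧
  ∀ i ∈ T, (C i).IsSmoothTwo ∧ (C i).rev.IsSmoothTwo

/-- `K` is the function field of the product of the curves `C i` over `L`, with the generic points
`(x i, y i)`. -/
def IsProductField {L K : Type} [Field L] [Field K] [Algebra L K] {n : ℕ}
    (C : Fin (n + 1) → Hyp (𝓞 L)) (x y : Fin (n + 1) → K) : Prop :=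
  AlgebraicIndependent L x ∧
  (∀ i, y i ^ 2 + aeval (x i) ((C i).h.map (algebraMap (𝓞 L) L)) * y i =
    aeval (x i) ((C i).f.map (algebraMap (𝓞 L) L))) ∧
  IntermediateField.adjoin L (Set.range x ∪ Set.range y) = ⊤

/-- `σ` is an automorphism of `K` which extends `s`, maps `(x i, y i)` to
`(x i, - y i - h (x i))` for `i` not in `T`, and to `(± x i, ± y i)` for `i` in `T`, with any
signs, and has the field of invariants `F`. -/
def IsTwist {E L F K : Type} [Field E] [Field L] [Algebra E L] [Field F] [Field K] [Algebra L K]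
    [Algebra F K] (s : L ≃ₐ[E] L) {n : ℕ} (C : Fin (n + 1) → Hyp (𝓞 L)) (x y : Fin (n + 1) → K)
    (T : Set (Fin (n + 1))) (σ : K ≃+* K) : Prop :=
  (∀ a : L, σ (algebraMap L K a) = algebraMap L K (s a)) ∧
  (∀ i, i ∉ T → σ (x i) = x i ∧
    σ (y i) = -y i - aeval (x i) ((C i).h.map (algebraMap (𝓞 L) L))) ∧
  (∀ i ∈ T, (σ (x i) = x i ∨ σ (x i) = -x i) ∧ (σ (y i) = y i ∨ σ (y i) = -y i)) ∧
  ∀ z, σ z = z ↔ ∃ f : F, algebraMap F K f = z

/-- The coordinates `z` are those of the product of the curves `C i`, with the embeddings by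
`1, x i, ..., x i ^ r, y i` and the Segre embedding: they span over `L` the products of the linear
combinations of `1, x i, ..., x i ^ r, y i`. -/
def IsSegre {L F K : Type} [Field L] [Field F] [Field K] [Algebra L K] [Algebra F K] {n N : ℕ}
    (C : Fin (n + 1) → Hyp (𝓞 L)) (x y : Fin (n + 1) → K) (z : Fin (N + 1) → F) : Prop :=
  Submodule.span L (Set.range fun j => algebraMap F K (z j)) =
    ∏ i, forms L (C i).r (x i) (y i)

/-- The dimension of the local ring `A` equals the dimension of its cotangent space. -/
def HasRegularDimension (A : Type) [CommRing A] [IsLocalRing A] : Prop :=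
  ringKrullDim A = (((Module.finrank (IsLocalRing.ResidueField A)
    (IsLocalRing.CotangentSpace A) : ℕ) : ℕ∞) : WithBot ℕ∞)

/-- The generic fibre of `g` is isomorphic over `E` to `X` with the morphism `f`. -/
def HasGenericFibre {E : Type} [Field E] {X Y : Scheme.{0}}
    (f : X ⟶ Spec (CommRingCat.of E)) (g : Y ⟶ Spec (CommRingCat.of (𝓞 E))) : Prop :=
  ∃ e : pullback g (Spec.map (CommRingCat.ofHom (algebraMap (𝓞 E) E))) ≅ X,
    e.hom ≫ f = pullback.snd g (Spec.map (CommRingCat.ofHom (algebraMap (𝓞 E) E)))

/-- The morphism `g` from `Y` is a regular proper flat model over the ring of integers of `E` of `X`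
with the morphism `f` to `Spec E`. -/
def IsRegularProperFlatModel {E : Type} [Field E] {X Y : Scheme.{0}}
    (f : X ⟶ Spec (CommRingCat.of E)) (g : Y ⟶ Spec (CommRingCat.of (𝓞 E))) : Prop :=
  IsProper g ∧ Flat g ∧ (∀ y : Y, HasRegularDimension (Y.presheaf.stalk y)) ∧ HasGenericFibre f g

/-- The structure morphism of `Proj ℬ` over `E`. -/
noncomputable def structureMorphism {E B : Type} [Field E] [CommRing B] [Algebra E B]
    (ℬ : ℕ → Submodule E B) [GradedAlgebra ℬ] : Proj ℬ ⟶ Spec (CommRingCat.of E) :=
  Proj.toSpecZero ℬ ≫ Spec.map (CommRingCat.ofHom (algebraMap E (ℬ 0)))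

theorem result :
    ∀ (E L : Type) [Field E] [NumberField E] [Field L] [NumberField L] [Algebra E L]
      -- the involution
      (s : L ≃ₐ[E] L), (∀ a, s (s a) = a) → (∃ a, s a ≠ a) →
      (∀ a, s a = a → ∃ e : E, algebraMap E L e = a) → HasDifferentExponentTwo s →
      -- the curves
      ∀ (n : ℕ) (C : Fin (n + 1) → Hyp (𝓞 L)), AreRegular C →
      ∀ T : Set (Fin (n + 1)), AreSmoothAtTwo s C T →
      -- the function fields
      ∀ (F K : Type) [Field F] [Field K] [Algebra E F] [Algebra L K] [Algebra E K] [Algebra F K]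
      [IsScalarTower E F K] [IsScalarTower E L K] (x y : Fin (n + 1) → K), IsProductField C x y →
      ∀ σ : K ≃+* K, IsTwist (F := F) s C x y T σ →
      -- the variety `V`
      ∀ (N : ℕ) (B : Type) [CommRing B] [Algebra E B] (π : MvPolynomial (Fin (N + 1)) E →ₐ[E] B),
      Function.Surjective π →
      ∀ (ℬ : ℕ → Submodule E B) [GradedAlgebra ℬ],
      (∀ d, ℬ d = (MvPolynomial.homogeneousSubmodule (Fin (N + 1)) E d).map π.toLinearMap) →
      ∀ z : Fin (N + 1) → F, IsCoordinates π z → IsSegre C x y z →
      -- every scheme over `E` isomorphic to `V = Proj ℬ` has a regular proper flat model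
      ∀ (X : Scheme.{0}) (f : X ⟶ Spec (CommRingCat.of E)) (i : X ≅ Proj ℬ),
      i.hom ≫ structureMorphism ℬ = f →
      ∃ (Y : Scheme.{0}) (g : Y ⟶ Spec (CommRingCat.of (𝓞 E))), IsRegularProperFlatModel f g := by
  intro E L _ _ _ _ _ s hss hs1 hsE hs2 n C ⟨hC, hR, d, hd, hco⟩ T ⟨hord, hsmo⟩ F K _ _ _ _ _ _ _ _
    x y ⟨hx, hE, hK⟩ σ ⟨hσL, hσ, hσt, hσF⟩ N B _ _ π hπ ℬ _ hℬ z hz hzS X f i hi
  let _ : Algebra (𝓞 E) F := ((algebraMap E F).comp (algebraMap (𝓞 E) E)).toAlgebra
  have hst : IsScalarTower (𝓞 E) E F := IsScalarTower.of_algebraMap_eq fun _ => rfl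
  have hM : Pool.Agent.W418.GoodModule (𝓞 E) z :=
    Pool.Agent.X269.HQ.good_of_data s hss hs1 hsE hs2 C hC hR d hd hco T
      (fun i hi => ⟨(hord i hi).1, (hord i hi).2.1⟩) (fun i hi => (hord i hi).2.2) hsmo x y hx hE hK
      σ hσL (fun i hi => (hσ i hi).1) (fun i hi => (hσ i hi).2) hσt hσF z hzS
  obtain ⟨ε, hε, hεgen, hε1⟩ := Pool.Agent.Y223.INV.exists_eps2 z π hπ ℬ hℬ
    (fun d P hP => hz d P hP)
  exact Pool.Agent.TH214.RM.hasModel_of_goodModule (O := 𝓞 E) ℬ ε hε hεgen z hε1 hM f i hi

end Pool.Agent.Results.MP_6a3dac_ag.TwistedHyperellipticProducts
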